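import Pool.Agent.TH320.GRes

set_option autoImplicit false

/-!
For every `d ≥ 2` there is a locally checkable labelling problem, given by isomorphism types of
rooted labelled graphs, that has a Baire measurable solution on the shift graph of `ℤ^d` on the free
part of `2^{ℤ^d}` but, for some Borel probability measure, no measurable solution; in particular it
has no Borel solution.
-/

namespace Pool.Agent.Results.MP_eb515b_lc.BaireNotMeasurable

open Pool.Agent.TH320.GL

theorem result (d : ℕ) (hd : 2 ≤ d) :
    ∃ Q : LCL, Q.HasBaire d ∧ ¬ Q.HasMeasurable d ∧ ¬ Q.HasBorel d :=
  baire_separation d hd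

end Pool.Agent.Results.MP_eb515b_lc.BaireNotMeasurable
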