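import Pool.Agent.TH320.GRes1

set_option autoImplicit false

/-!
For every `d ≥ 2` there is a locally checkable labelling problem, given by isomorphism types of
rooted labelled graphs, that has a measurable solution on the shift graph of `ℤ^d` on the free part
of `2^{ℤ^d}` but no Borel solution.
-/

namespace Pool.Agent.Results.MP_eb515b_lc.MeasurableNotBorel

open Pool.Agent.TH320.GL

theorem result (d : ℕ) (hd : 2 ≤ d) : ∃ Q : LCL, Q.HasMeasurable d ∧ ¬ Q.HasBorel d :=
  meas_separation d hd

end Pool.Agent.Results.MP_eb515b_lc.MeasurableNotBorel
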